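import Pool.Agent.W978.QP.Stm
import Pool.Agent.W597.QN.RK

/-!
# Project QP (owner helper978), part RK: for a smooth divisor all the matrices have rank at least
two; port of `Pool.Agent.W597.QN.RK`
-/

set_option autoImplicit false

namespace Pool.Agent.W721.QP.RK

open Pool.Agent.W978.QN (mnr)
open Pool.Agent.W978.QP
open Pool.Agent.W597.QN (ker orth2 rank1)

/-- Completion to a basis. -/
theorem basis2 (p : Fin 2 → ℂ) (hp : p ≠ 0) : ∃ v : Fin 2 → ℂ, ∀ c : Fin 2 → ℂ,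
    c 0 * p 0 + c 1 * p 1 = 0 → c 0 * v 0 + c 1 * v 1 = 0 → c 0 = 0 ∧ c 1 = 0 := by
  by_cases h0 : p 0 = 0
  · have h1 : p 1 ≠ 0 := by
      intro h1
      apply hp
      funext i
      fin_cases i
      · exact h0
      · exact h1
    refine ⟨![1, 0], fun c e1 e2 => ?_⟩
    simp at e2
    rw [e2, zero_mul, zero_add] at e1
    exact ⟨e2, (mul_eq_zero.1 e1).resolve_right h1⟩
  · refine ⟨![0, 1], fun c e1 e2 => ?_⟩
    simp at e2
    rw [e2, zero_mul, add_zero] at e1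
    exact ⟨(mul_eq_zero.1 e1).resolve_right h0, e2⟩

theorem fv_three (b : Fin 2 → Fin 3 → Fin 3 → ℤ) (p : Fin 2 → ℂ) (q r : Fin 3 → ℂ) :
    fv b p q r = ∑ j, ∑ k, mp b p k j * q j * r k := by
  unfold fv mp
  simp only [Fin.sum_univ_three, Fin.sum_univ_two]
  ring

theorem fv_first (b : Fin 2 → Fin 3 → Fin 3 → ℤ) (p : Fin 2 → ℂ) (q r : Fin 3 → ℂ) :
    fv b p q r = fv b ![1, 0] q r * p 0 + fv b ![0, 1] q r * p 1 := by
  unfold fv
  simp [Fin.sum_univ_three, Fin.sum_univ_two]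
  ring

theorem fv_third (b : Fin 2 → Fin 3 → Fin 3 → ℤ) (p : Fin 2 → ℂ) (u s t : Fin 3 → ℂ) (γ δ : ℂ) :
    fv b p u (fun k => γ * s k + δ * t k) = fv b p u s * γ + fv b p u t * δ := by
  unfold fv
  simp only [Fin.sum_univ_three, Fin.sum_univ_two]
  ring

theorem rk : S_RK := by
  intro b hS p hp
  by_contra hcon
  push Not at hcon
  obtain ⟨m, l, hml⟩ := rank1 _ hcon
  obtain ⟨u1, u2, hu1, -, hu⟩ := orth2 l
  obtain ⟨s1, s2, hs1, hs2, hs⟩ := orth2 m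
  obtain ⟨v1, hv⟩ := basis2 p hp
  obtain ⟨γ, δ, hγδ, k1, -⟩ := ker (fv b v1 u1 s1) (fv b v1 u1 s2) 0 0 (by ring)
  have hu10 : u1 ≠ 0 := by
    have h1 := hu 1 0 (Or.inl one_ne_zero)
    intro h0
    apply h1
    funext j
    rw [h0]
    simp
  have hr0 := hs γ δ hγδ
  have hpq : ∀ q' r' : Fin 3 → ℂ, fv b p q' r' =
      (l 0 * q' 0 + l 1 * q' 1 + l 2 * q' 2) * (m 0 * r' 0 + m 1 * r' 1 + m 2 * r' 2) := by
    intro q' r'
    rw [fv_three]
    simp only [hml, Fin.sum_univ_three]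
    ring
  have h2 : ∀ v, fv b p v (fun k => γ * s1 k + δ * s2 k) = 0 := by
    intro v
    rw [hpq]
    linear_combination (l 0 * v 0 + l 1 * v 1 + l 2 * v 2) * (γ * hs1 + δ * hs2)
  have h3 : ∀ v, fv b p u1 v = 0 := by
    intro v
    rw [hpq]
    linear_combination (m 0 * v 0 + m 1 * v 1 + m 2 * v 2) * hu1
  have e0 := h2 u1
  have e1 : fv b v1 u1 (fun k => γ * s1 k + δ * s2 k) = 0 := by
    rw [fv_third]
    exact k1
  rw [fv_first] at e0 e1
  obtain ⟨f0, f1⟩ := hv (![fv b ![1, 0] u1 (fun k => γ * s1 k + δ * s2 k),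
    fv b ![0, 1] u1 (fun k => γ * s1 k + δ * s2 k)]) (by simpa using e0) (by simpa using e1)
  simp at f0 f1
  have h1 : ∀ v, fv b v u1 (fun k => γ * s1 k + δ * s2 k) = 0 := by
    intro v
    rw [fv_first, f0, f1]
    ring
  rcases hS p u1 (fun k => γ * s1 k + δ * s2 k) hp hu10 hr0 (h1 p) with
    ⟨v, hv'⟩ | ⟨v, hv'⟩ | ⟨v, hv'⟩
  · exact hv' (h1 v)
  · exact hv' (h2 v)
  · exact hv' (h3 v)

end Pool.Agent.W721.QP.RK
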